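import Pool.Agent.Helper57.SL.Stmts

/-! Row UNS: suprema over unions of typical short intervals, from row CMS. -/

set_option autoImplicit false

namespace Pool.Agent.Helper75.SL

open MeasureTheory Set Filter Topology
open Pool.Agent.Helper57.QZ (Pr tor circ aa Zy Wy Sy Vy Ky pt lin)
open Pool.Agent.Helper57.SL

theorem uns_LL {H : ℝ} (hH : 3 ≤ H) : 0 < Real.log (Real.log H) := by
  apply Real.log_pos
  have h3 : Real.log 3 ≤ Real.log H := Real.log_le_log (by norm_num) hH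
  have : 1 < Real.log 3 := by
    rw [Real.lt_log_iff_exp_lt (by norm_num)]
    have := Real.exp_one_lt_d9
    linarith
  linarith

theorem uns_log {d : ℝ} (hd0 : 0 < d) (hd1 : d ≤ 1 / 20) : -(d / 16) ≤ Real.log (1 - d / 40) := by
  have h1 : 0 < 1 - d / 40 := by linarith
  have h2 := Real.one_sub_inv_le_log_of_pos h1
  refine le_trans ?_ h2
  have h3 : (1 - d / 40)⁻¹ ≤ 1 + d / 16 := by
    rw [inv_le_comm₀ h1 (by linarith)]
    rw [inv_eq_one_div, div_le_iff₀ (by linarith)]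
    nlinarith
  linarith

theorem uns_alg {δ S Z D W : ℝ} (hδ : δ ∈ Ioo (0:ℝ) 1) (hS : 0 < S) (hZ : 0 < Z)
    (hD1 : (1 - δ / 20 / 40) * Z * ((1 - δ / 20) * S) ≤ D) (hD2 : D ≤ Z * ((1 + δ / 20) * S))
    (hW1 : (1 - δ / 20) * S ≤ W) (hW2 : W ≤ (1 + δ / 20) * S) :
    (1 - δ) * (D / Z) ≤ W ∧ W ≤ (1 + δ) * (D / Z) ∧ |W - S| ≤ δ * S := by
  obtain ⟨h0, h1⟩ := hδ
  have e1 : D / Z ≤ (1 + δ / 20) * S := by
    rw [div_le_iff₀ hZ]
    linarith
  have e2 : (1 - δ / 20 / 40) * ((1 - δ / 20) * S) ≤ D / Z := by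
    rw [le_div_iff₀ hZ]
    linarith
  have hδS : 0 < δ * S := mul_pos h0 hS
  refine ⟨?_, ?_, ?_⟩
  · have e3 : (1 - δ) * (D / Z) ≤ (1 - δ) * ((1 + δ / 20) * S) :=
      mul_le_mul_of_nonneg_left e1 (by linarith)
    have e4 : (1 - δ) * ((1 + δ / 20) * S) ≤ (1 - δ / 20) * S := by
      have : 0 ≤ δ * δ * S := by positivity
      nlinarith
    linarith
  · have e3 : (1 + δ) * ((1 - δ / 20 / 40) * ((1 - δ / 20) * S)) ≤ (1 + δ) * (D / Z) :=
      mul_le_mul_of_nonneg_left e2 (by linarith)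
    have e4 : (1 + δ / 20) * S ≤ (1 + δ) * ((1 - δ / 20 / 40) * ((1 - δ / 20) * S)) := by
      have e5 : (1 + δ / 20) ≤ (1 + δ) * ((1 - δ / 20 / 40) * (1 - δ / 20)) := by nlinarith
      calc (1 + δ / 20) * S ≤ ((1 + δ) * ((1 - δ / 20 / 40) * (1 - δ / 20))) * S :=
            mul_le_mul_of_nonneg_right e5 hS.le
        _ = _ := by ring
    linarith
  · rw [abs_le]
    constructor <;> nlinarith

/-- the final theorem from row CMS -/
theorem st_UNS (h : ST_CMS) : ST_UNS := by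
  intro δ hδ B hB
  have hd : δ / 20 ∈ Ioo (0:ℝ) 1 := ⟨by linarith [hδ.1], by linarith [hδ.2]⟩
  have hd0 : 0 < δ / 20 := hd.1
  have hd1 : δ / 20 ≤ 1 / 20 := by linarith [hδ.2]
  obtain ⟨κ, hκ, H₀, T₀, hH₀, hT₀, h1⟩ := h (δ / 20) hd B hB
  refine ⟨κ, hκ, H₀, T₀, hH₀, hT₀, fun T hT H hH hHT => ?_⟩
  obtain ⟨hl3, h2⟩ := h1 T hT H hH hHT
  refine ⟨hl3, fun σ hσ => ?_⟩
  obtain ⟨hS2, M, R, E, hE1, hE2, h3⟩ := h2 σ hσ
  have hLL : 0 < Real.log (Real.log H) := uns_LL (hH₀.trans hH)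
  set S : ℝ := S2 σ ⌊Real.log H⌋₊ with hSdef
  have hS : 0 < S := by linarith
  have hSL : 1 / 2 ≤ S / Real.log (Real.log H) := by
    rw [le_div_iff₀ hLL]
    exact hS2
  refine ⟨E, hE1, hE2, fun U hU hUne G hG => ?_⟩
  have hin : ∀ u ∈ U, u ∈ Icc T (2 * T) ∧ u ∉ E := fun u hu => hU hu
  have hmem : ∀ t ∈ G, ∃ u ∈ U, t ∈ Icc u (u + H) := by
    intro t ht
    rw [hG] at ht
    simpa only [mem_iUnion, exists_prop] using ht
  have hsub : ∀ u ∈ U, ∀ t ∈ Icc u (u + H), t ∈ G := by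
    intro u hu t ht
    rw [hG]
    simp only [mem_iUnion, exists_prop]
    exact ⟨u, hu, ht⟩
  have hall : ∀ t ∈ G, riemannZeta (pt σ t) ≠ 0 ∧ ‖riemannZeta (pt σ t)‖ ≤ R ∧
      ‖deriv riemannZeta (pt σ t) / riemannZeta (pt σ t)‖ ≤ (1 + δ / 20) * S ∧
      (M - δ / 20 / 4 * (S / Real.log (Real.log H)) ≤ Real.log ‖riemannZeta (pt σ t)‖ →
        (1 - δ / 20) * S ≤ ‖deriv riemannZeta (pt σ t) / riemannZeta (pt σ t)‖) := by
    intro t ht
    obtain ⟨u, hu, htu⟩ := hmem t ht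
    exact (h3 u (hin u hu).1 (hin u hu).2).2.1 t htu
  refine ⟨?_, fun θ => ?_⟩
  · intro t ht
    obtain ⟨u, hu, htu⟩ := hmem t ht
    have h4 := (h3 u (hin u hu).1 (hin u hu).2).1
    have h5 := (hin u hu).1.1
    exact ⟨h5.trans htu.1, htu.2.trans h4⟩
  obtain ⟨u, hu⟩ := hUne
  obtain ⟨-, -, ⟨t₁, ht₁', hz1⟩, hθ⟩ := h3 u (hin u hu).1 (hin u hu).2
  obtain ⟨t₂, ht₂', hw2⟩ := hθ θ
  have ht₁ : t₁ ∈ G := hsub u hu t₁ ht₁'
  have ht₂ : t₂ ∈ G := hsub u hu t₂ ht₂'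
  have hder : ∀ t ∈ G, ‖deriv riemannZeta (pt σ t)‖ =
      ‖riemannZeta (pt σ t)‖ * ‖deriv riemannZeta (pt σ t) / riemannZeta (pt σ t)‖ := by
    intro t ht
    rw [← norm_mul, mul_div_cancel₀ _ (hall t ht).1]
  -- the supremum of the norm of zeta
  have hbdZ : BddAbove ((fun t : ℝ => ‖riemannZeta (pt σ t)‖) '' G) := by
    refine ⟨R, ?_⟩
    rintro _ ⟨s, hs, rfl⟩
    exact (hall s hs).2.1
  set Z : ℝ := sSup ((fun t : ℝ => ‖riemannZeta (pt σ t)‖) '' G) with hZdef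
  have hZ1 : ∀ t ∈ G, ‖riemannZeta (pt σ t)‖ ≤ Z := fun t ht => le_csSup hbdZ ⟨t, ht, rfl⟩
  have hpos1 : 0 < ‖riemannZeta (pt σ t₁)‖ := norm_pos_iff.2 (hall t₁ ht₁).1
  have hZ : 0 < Z := hpos1.trans_le (hZ1 t₁ ht₁)
  -- a point where zeta is nearly maximal
  have hlt : (1 - δ / 20 / 40) * Z < Z := by
    have : 0 < δ / 20 / 40 * Z := by positivity
    linarith
  obtain ⟨_, ⟨t₃, ht₃, rfl⟩, h33⟩ := exists_lt_of_lt_csSup
    (⟨_, ⟨t₁, ht₁, rfl⟩⟩ : ((fun t : ℝ => ‖riemannZeta (pt σ t)‖) '' G).Nonempty) hlt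
  have hlog3 : M - δ / 20 / 4 * (S / Real.log (Real.log H)) ≤
      Real.log ‖riemannZeta (pt σ t₃)‖ := by
    have a1 : Real.log ((1 - δ / 20 / 40) * Z) ≤ Real.log ‖riemannZeta (pt σ t₃)‖ :=
      Real.log_le_log (mul_pos (by linarith) hZ) h33.le
    have a2 : Real.log ((1 - δ / 20 / 40) * Z) =
        Real.log (1 - δ / 20 / 40) + Real.log Z :=
      Real.log_mul (by linarith) hZ.ne'
    have a3 : Real.log ‖riemannZeta (pt σ t₁)‖ ≤ Real.log Z :=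
      Real.log_le_log hpos1 (hZ1 t₁ ht₁)
    have a4 := uns_log hd0 hd1
    have a5 : δ / 20 / 8 * (1 / 2) ≤ δ / 20 / 8 * (S / Real.log (Real.log H)) :=
      mul_le_mul_of_nonneg_left hSL (by positivity)
    have a6 : δ / 20 / 4 * (S / Real.log (Real.log H)) =
        δ / 20 / 8 * (S / Real.log (Real.log H)) + δ / 20 / 8 * (S / Real.log (Real.log H)) := by
      ring
    linarith
  have hW3 := (hall t₃ ht₃).2.2.2 hlog3
  -- the supremum of the norm of the derivative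
  have hD2' : ∀ t ∈ G, ‖deriv riemannZeta (pt σ t)‖ ≤ Z * ((1 + δ / 20) * S) := by
    intro t ht
    rw [hder t ht]
    exact mul_le_mul (hZ1 t ht) (hall t ht).2.2.1 (norm_nonneg _) hZ.le
  have hbdD : BddAbove ((fun t : ℝ => ‖deriv riemannZeta (pt σ t)‖) '' G) := by
    refine ⟨Z * ((1 + δ / 20) * S), ?_⟩
    rintro _ ⟨s, hs, rfl⟩
    exact hD2' s hs
  have hD2 : sSup ((fun t : ℝ => ‖deriv riemannZeta (pt σ t)‖) '' G) ≤
      Z * ((1 + δ / 20) * S) := by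
    refine csSup_le ⟨_, ⟨t₁, ht₁, rfl⟩⟩ ?_
    rintro _ ⟨s, hs, rfl⟩
    exact hD2' s hs
  have hD1 : (1 - δ / 20 / 40) * Z * ((1 - δ / 20) * S) ≤
      sSup ((fun t : ℝ => ‖deriv riemannZeta (pt σ t)‖) '' G) := by
    have b1 : ‖deriv riemannZeta (pt σ t₃)‖ ≤
        sSup ((fun t : ℝ => ‖deriv riemannZeta (pt σ t)‖) '' G) :=
      le_csSup hbdD ⟨t₃, ht₃, rfl⟩
    refine le_trans ?_ b1
    rw [hder t₃ ht₃]
    exact mul_le_mul h33.le hW3 (mul_nonneg (by linarith) hS.le) (norm_nonneg _)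
  -- the supremum of the real part
  have hW2' : ∀ t ∈ G, (Complex.exp (-((θ : ℂ) * Complex.I)) *
      (deriv riemannZeta (pt σ t) / riemannZeta (pt σ t))).re ≤ (1 + δ / 20) * S := by
    intro t ht
    refine (Complex.re_le_norm _).trans ?_
    rw [norm_mul, show -((θ : ℂ) * Complex.I) = ((-θ : ℝ) : ℂ) * Complex.I by push_cast; ring,
      Complex.norm_exp_ofReal_mul_I, one_mul]
    exact (hall t ht).2.2.1
  have hbdW : BddAbove ((fun t : ℝ => (Complex.exp (-((θ : ℂ) * Complex.I)) *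
      (deriv riemannZeta (pt σ t) / riemannZeta (pt σ t))).re) '' G) := by
    refine ⟨(1 + δ / 20) * S, ?_⟩
    rintro _ ⟨s, hs, rfl⟩
    exact hW2' s hs
  have hW2 : sSup ((fun t : ℝ => (Complex.exp (-((θ : ℂ) * Complex.I)) *
      (deriv riemannZeta (pt σ t) / riemannZeta (pt σ t))).re) '' G) ≤ (1 + δ / 20) * S := by
    refine csSup_le ⟨_, ⟨t₁, ht₁, rfl⟩⟩ ?_
    rintro _ ⟨s, hs, rfl⟩
    exact hW2' s hs
  have hW1 : (1 - δ / 20) * S ≤ sSup ((fun t : ℝ => (Complex.exp (-((θ : ℂ) * Complex.I)) *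
      (deriv riemannZeta (pt σ t) / riemannZeta (pt σ t))).re) '' G) :=
    hw2.trans (le_csSup hbdW ⟨t₂, ht₂, rfl⟩)
  exact uns_alg hδ hS hZ hD1 hD2 hW1 hW2

end Pool.Agent.Helper75.SL
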